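import Pool.Agent.H90.UL.Defs

/-!
# Targets of the board ul_modules
-/

set_option autoImplicit false

namespace Pool.Agent.H90.UL

open Pool.Agent.H27.Pattern Finset

/-- the structure of a translated block -/
def T_PRE : Prop := ∀ a y n q : ℕ, a.Prime → 0 < n → q.Prime →
  (∀ x : ℕ, a ≤ x → x ≤ y → (x.Prime ↔ (x + n).Prime)) →
  (∀ c : ℕ, c < q → ∃ x : ℕ, x.Prime ∧ a ≤ x ∧ x ≤ y ∧ x % q = c) →
  ∃ (M : ℕ) (R : Finset ℕ), Pre a n q M R

/-- at least four periods; small primes divide the period -/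
def T_FOU : Prop := ∀ (a n q M : ℕ) (R : Finset ℕ), Pre a n q M R →
  4 ≤ M ∧ M < a ∧ ∀ p : ℕ, p.Prime → p ≤ M → p ∣ n

/-- the modulus is at most `4 ^ M` -/
def T_POW : Prop := ∀ (a n q M : ℕ) (R : Finset ℕ), Pre a n q M R → 5 ≤ a → q ≤ 4 ^ M

/-- counting a condition modulo `A` and a condition modulo `B`, `A` and `B` coprime -/
def T_CNT : Prop := ∀ (A B : ℕ) (f g : ℕ → Prop) [DecidablePred f] [DecidablePred g],
  0 < A → 0 < B → Nat.Coprime A B → (∀ x, f (x + A) ↔ f x) → (∀ x, g (x + B) ↔ g x) →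
  ((range (A * B)).filter fun x => f x ∧ g x).card =
    ((range A).filter f).card * ((range B).filter g).card

/-- the classes modulo `p` of the `x` with `x + t n ≠ 0` for `t < M` -/
def T_RES : Prop := ∀ p n M : ℕ, p.Prime → M < p → ¬ p ∣ n →
  ((range p).filter fun x => ∀ t < M, ¬ p ∣ x + t * n).card ≤ p - M

/-- the sieve bound -/
def T_SIV : Prop := ∀ (a n q M : ℕ) (R : Finset ℕ), Pre a n q M R → 2 ≤ M →
  ∀ (P : ℕ) (F : Finset ℕ), 0 < P → (∀ p : ℕ, p.Prime → p ∣ P → p ∣ n) →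
    (∀ p ∈ F, p.Prime ∧ M < p ∧ ¬ p ∣ n) →
    R.card ≤ F.card + P.totient * (∏ p ∈ F, (p - M)) *
      ((n + P * (∏ p ∈ F, p) - 1) / (P * ∏ p ∈ F, p))

/-- the criterion for large `M` -/
def T_KEY : Prop := ∀ (a n q M : ℕ) (R : Finset ℕ), Cfg a n q M R →
  ∀ (N0 M' d j P X : ℕ) (L : Finset ℕ), 0 < N0 → N0 ∣ n → (∀ p : ℕ, p.Prime → p ∣ N0 → p ≤ M) →
    M ≤ M' → 4 ^ M ≤ N0 * (M' + 1) ^ (d + 1) →
    (∀ p ∈ L, p.Prime ∧ M' < p ∧ p ≤ X) → d + j ≤ L.card →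
    0 < P → (∀ p : ℕ, p.Prime → p ∣ P → p ∣ n) →
    M * P.totient * (X - M) ^ j * (N0 + P * X ^ j) + M * j * (P * X ^ j) ≤ N0 * (P * X ^ j) →
    False

/-- the numerical input for very large `M` -/
def T_NUM : Prop := ∀ M : ℕ, 3307 ≤ M → ∃ d j : ℕ, 4 ^ M ≤ (M + 1) ^ (d + 1) ∧
  d + j ≤ ((Ioc M (10 * M)).filter Nat.Prime).card ∧
  M * (9 * M) ^ j * (primorial M + (10 * M) ^ j) + M * j * (10 * M) ^ j ≤
    primorial M * (10 * M) ^ j

/-- no configuration with `M ≤ 7` -/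
def T_SML : Prop := ∀ (a n q M : ℕ) (R : Finset ℕ), Cfg a n q M R → 8 ≤ M

/-- no configuration with `8 ≤ M ≤ 28` -/
def T_TRE : Prop := ∀ (a n q M : ℕ) (R : Finset ℕ), Cfg a n q M R → 8 ≤ M → 29 ≤ M

/-- no configuration with `29 ≤ M ≤ 3306` -/
def T_CRT : Prop := ∀ (a n q M : ℕ) (R : Finset ℕ), Cfg a n q M R → 29 ≤ M → 3307 ≤ M

/-- the main theorem on translated blocks -/
def T_COR : Prop := ∀ a y n q : ℕ, a.Prime → 0 < n → q.Prime →
  (∀ x : ℕ, a ≤ x → x ≤ y → (x.Prime ↔ (x + n).Prime)) →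
  (∀ c : ℕ, c < q → ∃ x : ℕ, x.Prime ∧ a ≤ x ∧ x ≤ y ∧ x % q = c) → False

/-- a block which meets every class modulo a prime occurs only once -/
def T_UNI : Prop := ∀ k l : ℕ, 1 ≤ k → l ∈ CoveringLengths k → l ∈ UniqueLengths k

/-- a covering block has at least `p k` elements -/
def T_LOW : Prop := ∀ k l : ℕ, 1 ≤ k → l ∈ CoveringLengths k → p k ≤ l

/-- some covering block is short -/
def T_LEN : Prop := ∃ C : ℝ, ∀ k : ℕ, 1 ≤ k → ∃ l ∈ CoveringLengths k,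
  (l : ℝ) ≤ C * (p k : ℝ) ^ 2 * Real.log (p k : ℝ) ^ 5

/-- Dickson's conjecture gives the converse of `T_UNI` -/
def T_DIC : Prop := Dickson → ∀ k l : ℕ, 1 ≤ k → l ∈ UniqueLengths k → l ∈ CoveringLengths k

end Pool.Agent.H90.UL
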