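import Pool.Agent.H90.UL.Targets

/-!
# The main theorem on translated blocks: assembly
-/

set_option autoImplicit false

namespace Pool.Agent.H90.UL

open Pool.Agent.H27.Pattern Finset

theorem pf_cor (hPRE : T_PRE) (hFOU : T_FOU) (hPOW : T_POW) (hSML : T_SML) (hTRE : T_TRE)
    (hCRT : T_CRT) (hKEY : T_KEY) (hNUM : T_NUM) : T_COR := by
  intro a y n q ha hn hq hper hcov
  obtain ⟨M, R, h⟩ := hPRE a y n q ha hn hq hper hcov
  obtain ⟨h4, hlt, hdvd⟩ := hFOU a n q M R h
  have hC : Cfg a n q M R :=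
    { toPre := h, four := h4, lt := hlt, dvd := hdvd, qle := hPOW a n q M R h (by omega) }
  have hM := hCRT a n q M R hC (hTRE a n q M R hC (hSML a n q M R hC))
  obtain ⟨d, j, e1, e2, e3⟩ := hNUM M hM
  have hP0 : 0 < primorial M := primorial_pos M
  refine hKEY a n q M R hC (primorial M) M d j 1 (10 * M) ((Ioc M (10 * M)).filter Nat.Prime)
    hP0 ?_ ?_ le_rfl ?_ ?_ e2 one_pos ?_ ?_
  · rw [primorial]
    refine Finset.prod_primes_dvd n ?_ ?_
    · intro p hp
      exact (mem_filter.1 hp).2.prime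
    · intro p hp
      rw [mem_filter, mem_range] at hp
      exact hdvd p hp.2 (by omega)
  · intro p hp hd
    rw [primorial, hp.prime.dvd_finset_prod_iff] at hd
    obtain ⟨r, hr, hpr⟩ := hd
    rw [mem_filter, mem_range] at hr
    rw [(Nat.prime_dvd_prime_iff_eq hp hr.2).1 hpr]
    omega
  · exact e1.trans (Nat.le_mul_of_pos_left _ hP0)
  · intro p hp
    rw [mem_filter, mem_Ioc] at hp
    exact ⟨hp.2, hp.1.1, hp.1.2⟩
  · intro p hp hd
    exact absurd (Nat.dvd_one.1 hd) hp.one_lt.ne'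
  · have h1 : 10 * M - M = 9 * M := by omega
    rw [h1, Nat.totient_one, mul_one, one_mul]
    exact e3

end Pool.Agent.H90.UL
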