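import Pool.Agent.H90.UL.Targets

/-!
# No configuration with `29 ≤ M ≤ 3306`: ten numerical certificates
-/

set_option autoImplicit false

namespace Pool.Agent.H90.UL

open Finset

/-- the primes up to 7841 -/
def PL2 : List ℕ :=
  [2, 3, 5, 7, 11, 13, 17, 19, 23, 29, 31, 37, 41, 43, 47, 53, 59, 61, 67, 71, 73, 79, 83, 89,
   97, 101, 103, 107, 109, 113, 127, 131, 137, 139, 149, 151, 157, 163, 167, 173, 179, 181, 191,
   193, 197, 199, 211, 223, 227, 229, 233, 239, 241, 251, 257, 263, 269, 271, 277, 281, 283, 293,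
   307, 311, 313, 317, 331, 337, 347, 349, 353, 359, 367, 373, 379, 383, 389, 397, 401, 409, 419,
   421, 431, 433, 439, 443, 449, 457, 461, 463, 467, 479, 487, 491, 499, 503, 509, 521, 523, 541,
   547, 557, 563, 569, 571, 577, 587, 593, 599, 601, 607, 613, 617, 619, 631, 641, 643, 647, 653,
   659, 661, 673, 677, 683, 691, 701, 709, 719, 727, 733, 739, 743, 751, 757, 761, 769, 773, 787,
   797, 809, 811, 821, 823, 827, 829, 839, 853, 857, 859, 863, 877, 881, 883, 887, 907, 911, 919,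
   929, 937, 941, 947, 953, 967, 971, 977, 983, 991, 997, 1009, 1013, 1019, 1021, 1031, 1033,
   1039, 1049, 1051, 1061, 1063, 1069, 1087, 1091, 1093, 1097, 1103, 1109, 1117, 1123, 1129,
   1151, 1153, 1163, 1171, 1181, 1187, 1193, 1201, 1213, 1217, 1223, 1229, 1231, 1237, 1249,
   1259, 1277, 1279, 1283, 1289, 1291, 1297, 1301, 1303, 1307, 1319, 1321, 1327, 1361, 1367,
   1373, 1381, 1399, 1409, 1423, 1427, 1429, 1433, 1439, 1447, 1451, 1453, 1459, 1471, 1481,
   1483, 1487, 1489, 1493, 1499, 1511, 1523, 1531, 1543, 1549, 1553, 1559, 1567, 1571, 1579,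
   1583, 1597, 1601, 1607, 1609, 1613, 1619, 1621, 1627, 1637, 1657, 1663, 1667, 1669, 1693,
   1697, 1699, 1709, 1721, 1723, 1733, 1741, 1747, 1753, 1759, 1777, 1783, 1787, 1789, 1801,
   1811, 1823, 1831, 1847, 1861, 1867, 1871, 1873, 1877, 1879, 1889, 1901, 1907, 1913, 1931,
   1933, 1949, 1951, 1973, 1979, 1987, 1993, 1997, 1999, 2003, 2011, 2017, 2027, 2029, 2039,
   2053, 2063, 2069, 2081, 2083, 2087, 2089, 2099, 2111, 2113, 2129, 2131, 2137, 2141, 2143,
   2153, 2161, 2179, 2203, 2207, 2213, 2221, 2237, 2239, 2243, 2251, 2267, 2269, 2273, 2281,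
   2287, 2293, 2297, 2309, 2311, 2333, 2339, 2341, 2347, 2351, 2357, 2371, 2377, 2381, 2383,
   2389, 2393, 2399, 2411, 2417, 2423, 2437, 2441, 2447, 2459, 2467, 2473, 2477, 2503, 2521,
   2531, 2539, 2543, 2549, 2551, 2557, 2579, 2591, 2593, 2609, 2617, 2621, 2633, 2647, 2657,
   2659, 2663, 2671, 2677, 2683, 2687, 2689, 2693, 2699, 2707, 2711, 2713, 2719, 2729, 2731,
   2741, 2749, 2753, 2767, 2777, 2789, 2791, 2797, 2801, 2803, 2819, 2833, 2837, 2843, 2851,
   2857, 2861, 2879, 2887, 2897, 2903, 2909, 2917, 2927, 2939, 2953, 2957, 2963, 2969, 2971,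
   2999, 3001, 3011, 3019, 3023, 3037, 3041, 3049, 3061, 3067, 3079, 3083, 3089, 3109, 3119,
   3121, 3137, 3163, 3167, 3169, 3181, 3187, 3191, 3203, 3209, 3217, 3221, 3229, 3251, 3253,
   3257, 3259, 3271, 3299, 3301, 3307, 3313, 3319, 3323, 3329, 3331, 3343, 3347, 3359, 3361,
   3371, 3373, 3389, 3391, 3407, 3413, 3433, 3449, 3457, 3461, 3463, 3467, 3469, 3491, 3499,
   3511, 3517, 3527, 3529, 3533, 3539, 3541, 3547, 3557, 3559, 3571, 3581, 3583, 3593, 3607,
   3613, 3617, 3623, 3631, 3637, 3643, 3659, 3671, 3673, 3677, 3691, 3697, 3701, 3709, 3719,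
   3727, 3733, 3739, 3761, 3767, 3769, 3779, 3793, 3797, 3803, 3821, 3823, 3833, 3847, 3851,
   3853, 3863, 3877, 3881, 3889, 3907, 3911, 3917, 3919, 3923, 3929, 3931, 3943, 3947, 3967,
   3989, 4001, 4003, 4007, 4013, 4019, 4021, 4027, 4049, 4051, 4057, 4073, 4079, 4091, 4093,
   4099, 4111, 4127, 4129, 4133, 4139, 4153, 4157, 4159, 4177, 4201, 4211, 4217, 4219, 4229,
   4231, 4241, 4243, 4253, 4259, 4261, 4271, 4273, 4283, 4289, 4297, 4327, 4337, 4339, 4349,
   4357, 4363, 4373, 4391, 4397, 4409, 4421, 4423, 4441, 4447, 4451, 4457, 4463, 4481, 4483,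
   4493, 4507, 4513, 4517, 4519, 4523, 4547, 4549, 4561, 4567, 4583, 4591, 4597, 4603, 4621,
   4637, 4639, 4643, 4649, 4651, 4657, 4663, 4673, 4679, 4691, 4703, 4721, 4723, 4729, 4733,
   4751, 4759, 4783, 4787, 4789, 4793, 4799, 4801, 4813, 4817, 4831, 4861, 4871, 4877, 4889,
   4903, 4909, 4919, 4931, 4933, 4937, 4943, 4951, 4957, 4967, 4969, 4973, 4987, 4993, 4999,
   5003, 5009, 5011, 5021, 5023, 5039, 5051, 5059, 5077, 5081, 5087, 5099, 5101, 5107, 5113,
   5119, 5147, 5153, 5167, 5171, 5179, 5189, 5197, 5209, 5227, 5231, 5233, 5237, 5261, 5273,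
   5279, 5281, 5297, 5303, 5309, 5323, 5333, 5347, 5351, 5381, 5387, 5393, 5399, 5407, 5413,
   5417, 5419, 5431, 5437, 5441, 5443, 5449, 5471, 5477, 5479, 5483, 5501, 5503, 5507, 5519,
   5521, 5527, 5531, 5557, 5563, 5569, 5573, 5581, 5591, 5623, 5639, 5641, 5647, 5651, 5653,
   5657, 5659, 5669, 5683, 5689, 5693, 5701, 5711, 5717, 5737, 5741, 5743, 5749, 5779, 5783,
   5791, 5801, 5807, 5813, 5821, 5827, 5839, 5843, 5849, 5851, 5857, 5861, 5867, 5869, 5879,
   5881, 5897, 5903, 5923, 5927, 5939, 5953, 5981, 5987, 6007, 6011, 6029, 6037, 6043, 6047,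
   6053, 6067, 6073, 6079, 6089, 6091, 6101, 6113, 6121, 6131, 6133, 6143, 6151, 6163, 6173,
   6197, 6199, 6203, 6211, 6217, 6221, 6229, 6247, 6257, 6263, 6269, 6271, 6277, 6287, 6299,
   6301, 6311, 6317, 6323, 6329, 6337, 6343, 6353, 6359, 6361, 6367, 6373, 6379, 6389, 6397,
   6421, 6427, 6449, 6451, 6469, 6473, 6481, 6491, 6521, 6529, 6547, 6551, 6553, 6563, 6569,
   6571, 6577, 6581, 6599, 6607, 6619, 6637, 6653, 6659, 6661, 6673, 6679, 6689, 6691, 6701,
   6703, 6709, 6719, 6733, 6737, 6761, 6763, 6779, 6781, 6791, 6793, 6803, 6823, 6827, 6829,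
   6833, 6841, 6857, 6863, 6869, 6871, 6883, 6899, 6907, 6911, 6917, 6947, 6949, 6959, 6961,
   6967, 6971, 6977, 6983, 6991, 6997, 7001, 7013, 7019, 7027, 7039, 7043, 7057, 7069, 7079,
   7103, 7109, 7121, 7127, 7129, 7151, 7159, 7177, 7187, 7193, 7207, 7211, 7213, 7219, 7229,
   7237, 7243, 7247, 7253, 7283, 7297, 7307, 7309, 7321, 7331, 7333, 7349, 7351, 7369, 7393,
   7411, 7417, 7433, 7451, 7457, 7459, 7477, 7481, 7487, 7489, 7499, 7507, 7517, 7523, 7529,
   7537, 7541, 7547, 7549, 7559, 7561, 7573, 7577, 7583, 7589, 7591, 7603, 7607, 7621, 7639,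
   7643, 7649, 7669, 7673, 7681, 7687, 7691, 7699, 7703, 7717, 7723, 7727, 7741, 7753, 7757,
   7759, 7789, 7793, 7817, 7823, 7829, 7841]

/-- no divisor in `[m, m + k)` -/
def noDiv (n : ℕ) : ℕ → ℕ → Bool
  | _, 0 => true
  | m, k + 1 => Nat.blt 0 (n % m) && noDiv n (m + 1) k

/-- a test for primality of numbers below `8100` -/
def isP (n : ℕ) : Bool := Nat.blt 1 n && Nat.blt n 8100 &&
  (if n < 91 then noDiv n 2 (n - 2) else noDiv n 2 88)

/-- the list is strictly increasing -/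
def incr : List ℕ → Bool
  | [] => true
  | [_] => true
  | x :: y :: L => Nat.blt x y && incr (y :: L)

lemma noDiv_spec (n : ℕ) : ∀ k m : ℕ, noDiv n m k = true → ∀ r, m ≤ r → r < m + k → ¬ r ∣ n := by
  intro k
  induction k with
  | zero => intro m _ r h1 h2; omega
  | succ k ih =>
    intro m h r h1 h2 hd
    rw [noDiv, Bool.and_eq_true, Nat.blt_eq] at h
    rcases Nat.eq_or_lt_of_le h1 with rfl | h3
    · have := Nat.mod_eq_zero_of_dvd hd
      omega
    · exact ih (m + 1) h.2 r h3 (by omega) hd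

lemma isP_prime {n : ℕ} (h : isP n = true) : n.Prime := by
  rw [isP, Bool.and_eq_true, Bool.and_eq_true, Nat.blt_eq, Nat.blt_eq] at h
  obtain ⟨⟨h1, h2⟩, h3⟩ := h
  rw [Nat.prime_def_le_sqrt]
  refine ⟨h1, fun m hm hms hd => ?_⟩
  have h4 : m * m ≤ n := Nat.le_sqrt.1 hms
  have h5 : m < 90 := by nlinarith
  split_ifs at h3 with hn
  · have h6 : m < n := by nlinarith
    exact noDiv_spec n _ _ h3 m hm (by omega) hd
  · exact noDiv_spec n _ _ h3 m hm (by omega) hd

lemma incr_pairwise : ∀ L : List ℕ, incr L = true → L.Pairwise (· < ·)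
  | [], _ => List.Pairwise.nil
  | [_], _ => List.pairwise_singleton _ _
  | x :: y :: L, h => by
    rw [incr, Bool.and_eq_true, Nat.blt_eq] at h
    have ih := incr_pairwise (y :: L) h.2
    refine List.pairwise_cons.2 ⟨?_, ih⟩
    intro z hz
    rcases List.mem_cons.1 hz with rfl | hz
    · exact h.1
    · exact h.1.trans ((List.pairwise_cons.1 ih).1 z hz)

lemma PL2_all : PL2.all isP = true := by decide +kernel

lemma PL2_incr : incr PL2 = true := by decide +kernel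

lemma PL2_prime {p : ℕ} (h : p ∈ PL2) : p.Prime :=
  isP_prime (List.all_eq_true.1 PL2_all p h)

lemma PL2_nodup : PL2.Nodup :=
  (incr_pairwise _ PL2_incr).imp fun h => h.ne

lemma prod_dvd_of_primes2 (n : ℕ) : ∀ S : List ℕ, S.Nodup → (∀ p ∈ S, p.Prime ∧ p ∣ n) →
    S.prod ∣ n
  | [], _, _ => by simp
  | p :: S, hnd, h => by
    rw [List.prod_cons]
    have hnd' := List.nodup_cons.1 hnd
    refine Nat.Coprime.mul_dvd_of_dvd_of_dvd ?_ (h p (by simp)).2
      (prod_dvd_of_primes2 n S hnd'.2 fun q hq => h q (by simp [hq]))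
    rw [Nat.coprime_list_prod_right_iff]
    intro q hq
    refine (Nat.coprime_primes (h p (by simp)).1 (h q (by simp [hq])).1).2 ?_
    rintro rfl
    exact hnd'.1 hq

/-- the primes up to `M1` of the list -/
def low (M1 : ℕ) : List ℕ := PL2.filter fun p => Nat.ble p M1

/-- the primes in `(M2, X]` of the list -/
def mid (M2 X : ℕ) : List ℕ := PL2.filter fun p => Nat.blt M2 p && Nat.ble p X

/-- the certificate for `M1 ≤ M ≤ M2` -/
def chk (M1 M2 d j P f X : ℕ) : Bool :=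
  Nat.ble (4 ^ M2) ((low M1).prod * (M2 + 1) ^ (d + 1)) &&
    Nat.ble (d + j) (mid M2 X).length &&
    Nat.ble (M2 * f * (X - M1) ^ j * ((low M1).prod + P * X ^ j) + M2 * j * (P * X ^ j))
      ((low M1).prod * (P * X ^ j))

lemma chk_sound (hK : T_KEY) {a n q M : ℕ} {R : Finset ℕ} (h : Cfg a n q M R)
    (M1 M2 d j P f X : ℕ) (hc : chk M1 M2 d j P f X = true) (h1 : M1 ≤ M) (h2 : M ≤ M2)
    (hP : 0 < P) (hf : P.totient = f) (hPn : ∀ p : ℕ, p.Prime → p ∣ P → p ∣ n) : False := by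
  classical
  rw [chk, Bool.and_eq_true, Bool.and_eq_true, Nat.ble_eq, Nat.ble_eq, Nat.ble_eq] at hc
  obtain ⟨⟨c1, c2⟩, c3⟩ := hc
  have hlow : ∀ p ∈ low M1, p.Prime ∧ p ≤ M := by
    intro p hp
    rw [low, List.mem_filter, Nat.ble_eq] at hp
    exact ⟨PL2_prime hp.1, hp.2.trans h1⟩
  have hN0 : 0 < (low M1).prod := List.prod_pos fun p hp => (hlow p hp).1.pos
  refine hK a n q M R h (low M1).prod M2 d j P X (mid M2 X).toFinset hN0
    (prod_dvd_of_primes2 n _ (PL2_nodup.filter _) fun p hp => ⟨(hlow p hp).1,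
      h.dvd p (hlow p hp).1 (hlow p hp).2⟩) ?_ h2
    ((Nat.pow_le_pow_right (by norm_num) h2).trans c1) ?_ ?_ hP hPn ?_
  · intro p hp hd
    rw [hp.prime.dvd_prod_iff] at hd
    obtain ⟨r, hr, hpr⟩ := hd
    rw [(Nat.prime_dvd_prime_iff_eq hp (hlow r hr).1).1 hpr]
    exact (hlow r hr).2
  · intro p hp
    rw [List.mem_toFinset, mid, List.mem_filter, Bool.and_eq_true, Nat.blt_eq, Nat.ble_eq] at hp
    exact ⟨PL2_prime hp.1, hp.2.1, hp.2.2⟩
  · have hnd : (mid M2 X).Nodup := PL2_nodup.filter _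
    rw [List.toFinset_card_of_nodup hnd]
    exact c2
  · rw [hf]
    refine le_trans ?_ c3
    gcongr

lemma cert : chk 29 30 5 3 210 48 61 = true ∧ chk 31 36 6 4 210 48 73 = true ∧
    chk 37 40 6 3 2310 480 73 = true ∧ chk 41 49 8 6 6 2 109 = true ∧
    chk 50 62 10 6 210 48 139 = true ∧ chk 63 88 15 8 210 48 199 = true ∧
    chk 89 145 24 12 210 48 349 = true ∧ chk 146 282 46 17 2310 480 677 = true ∧
    chk 283 822 129 34 2310 480 2011 = true ∧ chk 823 3306 468 59 2310 480 7841 = true := by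
  decide +kernel

lemma tot6 : Nat.totient 6 = 2 := by decide +kernel

lemma tot210 : Nat.totient 210 = 48 := by decide +kernel

lemma tot2310 : Nat.totient 2310 = 480 := by decide +kernel

theorem pf_crt (hK : T_KEY) : T_CRT := by
  intro a n q M R h h29
  by_contra hlt
  have key : ∀ P : ℕ, P ∣ 2310 → ∀ p : ℕ, p.Prime → p ∣ P → p ∣ n := by
    intro P hP p hp hd
    have h1 : p ∣ 2 * 3 * 5 * 7 * 11 := (hd.trans hP).trans (by norm_num)
    have hle : p ≤ M := by
      rw [hp.dvd_mul, hp.dvd_mul, hp.dvd_mul, hp.dvd_mul] at h1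
      rcases h1 with (((h1 | h1) | h1) | h1) | h1 <;>
        (have := Nat.le_of_dvd (by norm_num) h1; omega)
    exact h.dvd p hp hle
  obtain ⟨c1, c2, c3, c4, c5, c6, c7, c8, c9, c10⟩ := cert
  by_cases h1 : M ≤ 30
  · exact chk_sound hK h _ _ _ _ _ _ _ c1 h29 h1 (by norm_num) tot210 (key _ (by norm_num))
  by_cases h2 : M ≤ 36
  · exact chk_sound hK h _ _ _ _ _ _ _ c2 (by omega) h2 (by norm_num) tot210 (key _ (by norm_num))
  by_cases h3 : M ≤ 40
  · exact chk_sound hK h _ _ _ _ _ _ _ c3 (by omega) h3 (by norm_num) tot2310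
      (key _ (by norm_num))
  by_cases h4 : M ≤ 49
  · exact chk_sound hK h _ _ _ _ _ _ _ c4 (by omega) h4 (by norm_num) tot6 (key _ (by norm_num))
  by_cases h5 : M ≤ 62
  · exact chk_sound hK h _ _ _ _ _ _ _ c5 (by omega) h5 (by norm_num) tot210 (key _ (by norm_num))
  by_cases h6 : M ≤ 88
  · exact chk_sound hK h _ _ _ _ _ _ _ c6 (by omega) h6 (by norm_num) tot210 (key _ (by norm_num))
  by_cases h7 : M ≤ 145
  · exact chk_sound hK h _ _ _ _ _ _ _ c7 (by omega) h7 (by norm_num) tot210 (key _ (by norm_num))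
  by_cases h8 : M ≤ 282
  · exact chk_sound hK h _ _ _ _ _ _ _ c8 (by omega) h8 (by norm_num) tot2310
      (key _ (by norm_num))
  by_cases h9 : M ≤ 822
  · exact chk_sound hK h _ _ _ _ _ _ _ c9 (by omega) h9 (by norm_num) tot2310
      (key _ (by norm_num))
  · exact chk_sound hK h _ _ _ _ _ _ _ c10 (by omega) (by omega) (by norm_num) tot2310
      (key _ (by norm_num))

end Pool.Agent.H90.UL
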