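import Pool.Agent.H27.Pattern.Defs

/-!
# Blocks of consecutive primes which meet every residue class modulo some prime
-/

set_option autoImplicit false

namespace Pool.Agent.H90.UL

open Pool.Agent.H27.Pattern Finset

/-- the lengths `l` for which the block `p k, …, p (k + l - 1)` meets every residue class modulo
some prime `q` -/
def CoveringLengths (k : ℕ) : Set ℕ :=
  {l : ℕ | ∃ q : ℕ, q.Prime ∧ ∀ c : ℕ, c < q → ∃ i : ℕ, i < l ∧ p (k + i) % q = c}

/-- Dickson's conjecture, for linear forms `a x + b` with `a ≥ 1` and `b ≥ 0`: if no prime divides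
the product of the forms for all `x`, then all forms are prime for infinitely many `x`. -/
def Dickson : Prop :=
  ∀ (m : ℕ) (a b : Fin m → ℕ), (∀ i, 1 ≤ a i) →
    (∀ q : ℕ, q.Prime → ∃ x : ℕ, ∀ i, ¬ q ∣ a i * x + b i) →
    ∀ N : ℕ, ∃ x : ℕ, N ≤ x ∧ ∀ i, (a i * x + b i).Prime

/-- What follows at once if the primes of an interval `[a, y]` and their translates by `n` are both
the sets of all primes of an interval and meet all classes modulo `q`; `R` is the set of the primes
of `[a, a + n)` and `M` the number of the periods. -/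
structure Pre (a n q M : ℕ) (R : Finset ℕ) : Prop where
  apr : a.Prime
  pos : 0 < n
  one : 1 ≤ M
  qge : a + n ≤ q
  qcard : q ≤ M * R.card
  sub : ∀ x ∈ R, a ≤ x ∧ x < a + n
  mem : ∀ x : ℕ, x.Prime → a ≤ x → x < a + n → x ∈ R
  chain : ∀ x ∈ R, ∀ t : ℕ, t < M → (x + t * n).Prime
  last : (a + M * n).Prime

/-- the further properties -/
structure Cfg (a n q M : ℕ) (R : Finset ℕ) : Prop extends Pre a n q M R where
  four : 4 ≤ M
  lt : M < a
  dvd : ∀ p : ℕ, p.Prime → p ≤ M → p ∣ n
  qle : q ≤ 4 ^ M

end Pool.Agent.H90.UL
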