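import Pool.Agent.H90.UL.Targets

/-!
# The criterion for large `M`
-/

set_option autoImplicit false

namespace Pool.Agent.H90.UL

open Finset

theorem pf_key (hS : T_SIV) : T_KEY := by
  classical
  intro a n q M R h N0 M' d j P X L hN0 hN0n hN0M hMM' hpow hL hcard hP hPn hineq
  have hn : 0 < n := h.pos
  have hnlt : n < 4 ^ M := by
    have h1 := h.qge
    have h2 := h.qle
    have h3 := h.lt
    omega
  set D := L.filter (fun p => p ∣ n) with hD
  have hDd : D.card ≤ d := by
    by_contra hlt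
    push Not at hlt
    have h1 : N0 * ∏ p ∈ D, p ∣ n := by
      refine Nat.Coprime.mul_dvd_of_dvd_of_dvd ?_ hN0n ?_
      · rw [Nat.coprime_prod_right_iff]
        intro p hp
        have h2 := hL p (mem_filter.1 hp).1
        refine ((Nat.Prime.coprime_iff_not_dvd h2.1).2 fun h3 => ?_).symm
        have h4 := hN0M p h2.1 h3
        omega
      · exact Finset.prod_primes_dvd n (fun p hp => (hL p (mem_filter.1 hp).1).1.prime)
          (fun p hp => (mem_filter.1 hp).2)
    have h2 := Nat.le_of_dvd hn h1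
    have h3 : (M' + 1) ^ (d + 1) ≤ ∏ p ∈ D, p := by
      calc (M' + 1) ^ (d + 1) ≤ (M' + 1) ^ D.card := Nat.pow_le_pow_right (by omega) hlt
        _ = ∏ _p ∈ D, (M' + 1) := (Finset.prod_const _).symm
        _ ≤ ∏ p ∈ D, p := Finset.prod_le_prod (fun _ _ => Nat.zero_le _) fun p hp =>
            (hL p (mem_filter.1 hp).1).2.1
    have h4 : N0 * (M' + 1) ^ (d + 1) ≤ N0 * ∏ p ∈ D, p := Nat.mul_le_mul_left _ h3
    omega
  have hEj : j ≤ (L.filter (fun p => ¬ p ∣ n)).card := by
    have h1 : D.card + (L.filter (fun p => ¬ p ∣ n)).card = L.card :=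
      Finset.card_filter_add_card_filter_not (s := L) (fun p => p ∣ n)
    omega
  obtain ⟨F, hFE, hFj⟩ := Finset.exists_subset_card_eq hEj
  have hF : ∀ p ∈ F, p.Prime ∧ M < p ∧ ¬ p ∣ n ∧ p ≤ X := by
    intro p hp
    have h1 := mem_filter.1 (hFE hp)
    have h2 := hL p h1.1
    exact ⟨h2.1, by omega, h1.2, h2.2.2⟩
  have h3 := hS a n q M R h.toPre (by have := h.four; omega) P F hP hPn
    (fun p hp => ⟨(hF p hp).1, (hF p hp).2.1, (hF p hp).2.2.1⟩)
  rw [hFj] at h3
  set g := ∏ p ∈ F, (p - M) with hg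
  set π := ∏ p ∈ F, p with hπ
  set f := P.totient with hf
  have hπ0 : 0 < π := Finset.prod_pos fun p hp => (hF p hp).1.pos
  have hu : (n + P * π - 1) / (P * π) * (P * π) ≤ n + P * π - 1 := Nat.div_mul_le_self _ _
  set u := (n + P * π - 1) / (P * π) with hu'
  have hratio : g * X ^ j ≤ π * (X - M) ^ j := by
    have e1 : g * X ^ j = ∏ p ∈ F, ((p - M) * X) := by
      rw [Finset.prod_mul_distrib, Finset.prod_const, hFj]
    have e2 : π * (X - M) ^ j = ∏ p ∈ F, (p * (X - M)) := by
      rw [Finset.prod_mul_distrib, Finset.prod_const, hFj]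
    rw [e1, e2]
    refine Finset.prod_le_prod (fun _ _ => Nat.zero_le _) fun p hp => ?_
    obtain ⟨-, h5, -, h6⟩ := hF p hp
    obtain ⟨e, he⟩ := Nat.exists_eq_add_of_le h5.le
    obtain ⟨f', hf'⟩ := Nat.exists_eq_add_of_le h6
    have h7 : p - M = e := by omega
    have h8 : X - M = e + f' := by omega
    rw [h7, h8, hf', he]
    nlinarith [Nat.zero_le (M * f')]
  have hπX : π ≤ X ^ j := by
    rw [← hFj, ← Finset.prod_const]
    exact Finset.prod_le_prod (fun _ _ => Nat.zero_le _) fun p hp => (hF p hp).2.2.2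
  have h4 : n < M * (j + f * g * u) := by
    have h5 := h.qge
    have h6 := h.qcard
    have h7 := h.lt
    calc n < q := by omega
      _ ≤ M * R.card := h6
      _ ≤ _ := Nat.mul_le_mul_left _ h3
  have hPπ : 0 < P * π := Nat.mul_pos hP hπ0
  -- multiply by `P * π`
  have h5 : n * (P * π) < M * j * (P * π) + M * f * g * (n + P * π) := by
    calc n * (P * π) < M * (j + f * g * u) * (P * π) := Nat.mul_lt_mul_of_pos_right h4 hPπ
      _ = M * j * (P * π) + M * f * g * (u * (P * π)) := by ring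
      _ ≤ M * j * (P * π) + M * f * g * (n + P * π) := by
          gcongr
          omega
  -- multiply by `X ^ j`
  have hX0 : 0 < X ^ j := lt_of_lt_of_le hπ0 hπX
  set B := M * f * (X - M) ^ j with hB
  have h6 : π * (n * (P * X ^ j)) < π * (M * j * (P * X ^ j) + B * (n + P * X ^ j)) := by
    calc π * (n * (P * X ^ j)) = n * (P * π) * X ^ j := by ring
      _ < (M * j * (P * π) + M * f * g * (n + P * π)) * X ^ j :=
          Nat.mul_lt_mul_of_pos_right h5 hX0
      _ = π * (M * j * (P * X ^ j)) + M * f * (g * X ^ j) * (n + P * π) := by ring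
      _ ≤ π * (M * j * (P * X ^ j)) + M * f * (π * (X - M) ^ j) * (n + P * X ^ j) := by
          gcongr
      _ = _ := by rw [hB]; ring
  have h7 : n * (P * X ^ j) < M * j * (P * X ^ j) + B * (n + P * X ^ j) :=
    Nat.lt_of_mul_lt_mul_left h6
  set W := P * X ^ j with hW
  have h8 : B * N0 ≤ N0 * W := by
    have : B * (N0 + W) = B * N0 + B * W := by ring
    omega
  have h9 : B ≤ W := by
    rw [mul_comm B N0] at h8
    exact Nat.le_of_mul_le_mul_left h8 hN0
  obtain ⟨e, rfl⟩ := Nat.exists_eq_add_of_le (Nat.le_of_dvd hn hN0n)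
  have h10 : B * e ≤ W * e := Nat.mul_le_mul_right _ h9
  have h11 : (N0 + e) * W = N0 * W + W * e := by ring
  have h12 : B * (N0 + e + W) = B * (N0 + W) + B * e := by ring
  rw [h11, h12] at h7
  omega

end Pool.Agent.H90.UL
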