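import Pool.Agent.H90.UL.Targets

/-!
# No configuration with `8 ≤ M ≤ 28`: a recursive certificate
-/

set_option autoImplicit false

namespace Pool.Agent.H90.UL

open Finset

/-- one use of the sieve bound -/
def lf (M n0 P f : ℕ) (F : List ℕ) : Bool :=
  Nat.blt (M * (f * (F.map (· - M)).prod)) (P * F.prod) &&
    Nat.blt (M * (F.length * (P * F.prod) +
      f * (F.map (· - M)).prod * (n0 + P * F.prod - 1))) ((M + 1 + n0) * (P * F.prod))

/-- the four moduli used at a leaf -/
def leaf (M n0 : ℕ) (F : List ℕ) : Bool :=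
  lf M n0 1 1 F || lf M n0 2 1 F || lf M n0 6 2 F || lf M n0 30 8 F

/-- the search: each prime of the list divides `n` or does not -/
def tree (M : ℕ) : List ℕ → List ℕ → ℕ → Bool
  | [], F, n0 => Nat.ble (4 ^ M) n0 || leaf M n0 F
  | p :: L, F, n0 => Nat.ble (4 ^ M) n0 || leaf M n0 F ||
      (tree M L F (n0 * p) && tree M L (p :: F) n0)

/-- the primes used -/
def PL : List ℕ := [2, 3, 5, 7, 11, 13, 17, 19, 23, 29, 31, 37, 41, 43, 47, 53, 59, 61]

lemma PL_prime : ∀ p ∈ PL, p.Prime := by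
  intro p hp
  simp only [PL, List.mem_cons, List.not_mem_nil, or_false] at hp
  rcases hp with h | h | h | h | h | h | h | h | h | h | h | h | h | h | h | h | h | h <;>
    subst h <;> norm_num

lemma PL_nodup : PL.Nodup := by decide

lemma prod_dvd_of_primes (n : ℕ) : ∀ S : List ℕ, S.Nodup → (∀ p ∈ S, p.Prime ∧ p ∣ n) →
    S.prod ∣ n
  | [], _, _ => by simp
  | p :: S, hnd, h => by
    rw [List.prod_cons]
    have hnd' := List.nodup_cons.1 hnd
    refine Nat.Coprime.mul_dvd_of_dvd_of_dvd ?_ (h p (by simp)).2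
      (prod_dvd_of_primes n S hnd'.2 fun q hq => h q (by simp [hq]))
    rw [Nat.coprime_list_prod_right_iff]
    intro q hq
    refine (Nat.coprime_primes (h p (by simp)).1 (h q (by simp [hq])).1).2 ?_
    rintro rfl
    exact hnd'.1 hq

lemma lf_sound (hS : T_SIV) {a n q M : ℕ} {R : Finset ℕ} (h : Cfg a n q M R) {n0 P f : ℕ}
    {F : List ℕ} (hP : 0 < P) (hPn : ∀ p : ℕ, p.Prime → p ∣ P → p ∣ n) (hf : P.totient = f)
    (hnd : F.Nodup) (hF : ∀ p ∈ F, p.Prime ∧ M < p ∧ ¬ p ∣ n) (hn0 : n0 ≤ n)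
    (hc : lf M n0 P f F = true) : False := by
  classical
  rw [lf, Bool.and_eq_true, Nat.blt_eq, Nat.blt_eq] at hc
  obtain ⟨h1, h2⟩ := hc
  have h3 := hS a n q M R h.toPre (by have := h.four; omega) P F.toFinset hP hPn
    (fun p hp => hF p (List.mem_toFinset.1 hp))
  rw [List.toFinset_card_of_nodup hnd, hf, List.prod_toFinset _ hnd,
    List.prod_toFinset _ hnd] at h3
  simp only [List.map_id'] at h3
  set g := (F.map (· - M)).prod with hg
  set W := P * F.prod with hW
  have hW0 : 0 < W := by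
    refine Nat.mul_pos hP (List.prod_pos ?_)
    intro p hp
    exact (hF p hp).1.pos
  have hu : (n + W - 1) / W * W ≤ n + W - 1 := Nat.div_mul_le_self _ _
  set u := (n + W - 1) / W with hu'
  have h4 : M + 1 + n ≤ M * (F.length + f * g * u) := by
    have h5 := h.qge
    have h6 := h.qcard
    have h7 := h.lt
    calc M + 1 + n ≤ q := by omega
      _ ≤ M * R.card := h6
      _ ≤ _ := Nat.mul_le_mul_left _ h3
  obtain ⟨e, rfl⟩ := Nat.exists_eq_add_of_le hn0
  have h5 : (M + 1 + (n0 + e)) * W ≤ M * (F.length * W + f * g * (n0 + e + W - 1)) := by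
    calc (M + 1 + (n0 + e)) * W ≤ M * (F.length + f * g * u) * W := Nat.mul_le_mul_right _ h4
      _ = M * (F.length * W + f * g * (u * W)) := by ring
      _ ≤ _ := by gcongr
  have h6 : n0 + e + W - 1 = (n0 + W - 1) + e := by omega
  rw [h6] at h5
  have h7 : M * (f * g) * e ≤ W * e := Nat.mul_le_mul_right _ h1.le
  have h8 : M * (F.length * W + f * g * (n0 + W - 1 + e)) =
      M * (F.length * W + f * g * (n0 + W - 1)) + M * (f * g) * e := by ring
  have h9 : (M + 1 + (n0 + e)) * W = (M + 1 + n0) * W + W * e := by ring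
  rw [h8, h9] at h5
  omega

lemma leaf_sound (hS : T_SIV) {a n q M : ℕ} {R : Finset ℕ} (h : Cfg a n q M R) {n0 : ℕ}
    {F : List ℕ} (h30 : 30 ∣ n)
    (hnd : F.Nodup) (hF : ∀ p ∈ F, p.Prime ∧ M < p ∧ ¬ p ∣ n) (hn0 : n0 ≤ n)
    (hc : leaf M n0 F = true) : False := by
  have key : ∀ P : ℕ, P ∣ 30 → ∀ p : ℕ, p.Prime → p ∣ P → p ∣ n := fun P hP p _ hp =>
    (hp.trans hP).trans h30
  simp only [leaf, Bool.or_eq_true] at hc
  rcases hc with ((hc | hc) | hc) | hc
  · exact lf_sound hS h (by norm_num) (key 1 (by norm_num)) (by decide) hnd hF hn0 hc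
  · exact lf_sound hS h (by norm_num) (key 2 (by norm_num)) (by decide) hnd hF hn0 hc
  · exact lf_sound hS h (by norm_num) (key 6 (by norm_num)) (by decide) hnd hF hn0 hc
  · exact lf_sound hS h (by norm_num) (key 30 (by norm_num)) (by decide) hnd hF hn0 hc

lemma tree_sound (hS : T_SIV) {a n q M : ℕ} {R : Finset ℕ} (h : Cfg a n q M R)
    (h30 : 30 ∣ n) : ∀ (L F : List ℕ) (n0 : ℕ), n0 ∣ n → L.Nodup →
    (∀ p ∈ L, p.Prime ∧ M < p ∧ Nat.Coprime n0 p ∧ p ∉ F) → F.Nodup →
    (∀ p ∈ F, p.Prime ∧ M < p ∧ ¬ p ∣ n) → tree M L F n0 = true → False := by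
  have hn : 0 < n := h.pos
  have hlt : n < 4 ^ M := by
    have h1 := h.qge
    have h2 := h.qle
    have h3 := h.lt
    omega
  intro L
  induction L with
  | nil =>
    intro F n0 hd _ _ hnd hF hc
    have hle := Nat.le_of_dvd hn hd
    simp only [tree, Bool.or_eq_true, Nat.ble_eq] at hc
    rcases hc with hc | hc
    · omega
    · exact leaf_sound hS h h30 hnd hF hle hc
  | cons p L ih =>
    intro F n0 hd hLnd hL hnd hF hc
    have hle := Nat.le_of_dvd hn hd
    simp only [tree, Bool.or_eq_true, Nat.ble_eq, Bool.and_eq_true] at hc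
    rcases hc with (hc | hc) | hc
    · omega
    · exact leaf_sound hS h h30 hnd hF hle hc
    · obtain ⟨hp, hMp, hcop, hpF⟩ := hL p (by simp)
      have hLnd' := List.nodup_cons.1 hLnd
      by_cases hpn : p ∣ n
      · refine ih F (n0 * p) (Nat.Coprime.mul_dvd_of_dvd_of_dvd hcop hd hpn) hLnd'.2 ?_ hnd hF
          hc.1
        intro r hr
        obtain ⟨h1, h2, h3, h4⟩ := hL r (by simp [hr])
        refine ⟨h1, h2, Nat.Coprime.mul_left h3 ((Nat.coprime_primes hp h1).2 ?_), h4⟩
        rintro rfl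
        exact hLnd'.1 hr
      · refine ih (p :: F) n0 hd hLnd'.2 ?_ (List.nodup_cons.2 ⟨hpF, hnd⟩) ?_ hc.2
        · intro r hr
          obtain ⟨h1, h2, h3, h4⟩ := hL r (by simp [hr])
          refine ⟨h1, h2, h3, ?_⟩
          rw [List.mem_cons]
          rintro (rfl | h5)
          · exact hLnd'.1 hr
          · exact h4 h5
        · intro r hr
          rw [List.mem_cons] at hr
          rcases hr with rfl | hr
          · exact ⟨hp, hMp, hpn⟩
          · exact hF r hr

lemma tree_check : ∀ M : ℕ, M < 29 → 8 ≤ M →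
    tree M (PL.filter fun p => decide (M < p)) [] (PL.filter fun p => decide (p ≤ M)).prod = true := by
  decide +kernel

theorem pf_tre (hS : T_SIV) : T_TRE := by
  intro a n q M R h h8
  by_contra hlt
  have hM : M < 29 := by omega
  have h30 : 30 ∣ n := by
    have h2 := h.dvd 2 (by norm_num) (by omega)
    have h3 := h.dvd 3 (by norm_num) (by omega)
    have h5 := h.dvd 5 (by norm_num) (by omega)
    omega
  have hcheck := tree_check M hM h8
  refine tree_sound hS h h30 _ _ _ ?_ (PL_nodup.filter _) ?_ (by simp) (by simp) hcheck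
  · apply prod_dvd_of_primes n _ (PL_nodup.filter _)
    intro p hp
    rw [List.mem_filter, decide_eq_true_eq] at hp
    exact ⟨PL_prime p hp.1, h.dvd p (PL_prime p hp.1) hp.2⟩
  · intro p hp
    rw [List.mem_filter, decide_eq_true_eq] at hp
    refine ⟨PL_prime p hp.1, hp.2, ?_, by simp⟩
    rw [Nat.coprime_list_prod_left_iff]
    intro r hr
    rw [List.mem_filter, decide_eq_true_eq] at hr
    refine (Nat.coprime_primes (PL_prime r hr.1) (PL_prime p hp.1)).2 ?_
    omega

end Pool.Agent.H90.UL
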